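import Mathlib

/-!
# Ample numbers coprime to the first `k` primes

`a n` is the number of recursive divisors of `n`.  For a finite set `Q` of primes with
`S = ∑ 1/q > 1` put `N_m` for the set of products of `m` primes of `Q`.  From
`a n ≥ ∑_{q ∣ n} a (n/q)` one gets `∑_{n ∈ N_m} a n / n ≥ S ^ m`, while `N_m` has at most
`(m+1)^|Q|` elements, so that `a n > n` for some `n` in some `N_m`.
-/

namespace Pool.Agent.Results.MP_bbacab_nt.AmpleCoprime

open Finset Filter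

/-- The number of recursive divisors of `n`: it is `1` plus the sum of the numbers of recursive
divisors of the proper divisors of `n` (so `a 1 = 1`). -/
def a (n : ℕ) : ℕ :=
  1 + ∑ m ∈ n.properDivisors.attach, a m.1
termination_by n
decreasing_by exact (Nat.mem_properDivisors.1 m.2).2

theorem a_eq (n : ℕ) : a n = 1 + ∑ m ∈ n.properDivisors, a m := by
  rw [a, Finset.sum_attach n.properDivisors (fun m => a m)]

theorem a_one : a 1 = 1 := by
  rw [a_eq]; simp

/-- The set of products of `m` elements of `Q`. -/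
def N (Q : Finset ℕ) : ℕ → Finset ℕ
  | 0 => {1}
  | m + 1 => (Q ×ˢ N Q m).image fun x => x.1 * x.2

theorem N_pos {Q : Finset ℕ} (hQ : ∀ q ∈ Q, q.Prime) : ∀ m, ∀ n ∈ N Q m, 0 < n := by
  intro m
  induction m with
  | zero => intro n hn; simp [N] at hn; omega
  | succ m ih =>
    intro n hn
    simp only [N, mem_image, mem_product, Prod.exists] at hn
    obtain ⟨q, n', ⟨hq, hn'⟩, rfl⟩ := hn
    exact Nat.mul_pos (hQ q hq).pos (ih n' hn')

theorem N_dvd {Q : Finset ℕ} : ∀ m, ∀ n ∈ N Q m, n ∣ (∏ q ∈ Q, q) ^ m := by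
  intro m
  induction m with
  | zero => intro n hn; simp [N] at hn; simp [hn]
  | succ m ih =>
    intro n hn
    simp only [N, mem_image, mem_product, Prod.exists] at hn
    obtain ⟨q, n', ⟨hq, hn'⟩, rfl⟩ := hn
    rw [pow_succ, mul_comm q n']
    exact mul_dvd_mul (ih n' hn') (dvd_prod_of_mem _ hq)

theorem sum_le_a {Q : Finset ℕ} (hQ : ∀ q ∈ Q, q.Prime) {n : ℕ} (hn : 0 < n) :
    ∑ q ∈ Q.filter (· ∣ n), a (n / q) ≤ a n := by
  classical
  have hinj : Set.InjOn (fun q => n / q) (Q.filter (· ∣ n) : Finset ℕ) := by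
    intro x hx y hy hxy
    simp only [coe_filter, Set.mem_ofPred_eq] at hx hy
    simp only at hxy
    have h1 : x * (n / x) = n := Nat.mul_div_cancel' hx.2
    have h2 : y * (n / y) = n := Nat.mul_div_cancel' hy.2
    rw [hxy] at h1
    have h3 : 0 < n / y := Nat.div_pos (Nat.le_of_dvd hn hy.2) (hQ y hy.1).pos
    exact Nat.eq_of_mul_eq_mul_right h3 (h1.trans h2.symm)
  rw [a_eq n, ← Finset.sum_image (f := a) hinj]
  refine le_add_left (Finset.sum_le_sum_of_subset ?_)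
  intro d hd
  simp only [mem_image, mem_filter] at hd
  obtain ⟨q, ⟨hq, hqn⟩, rfl⟩ := hd
  rw [Nat.mem_properDivisors]
  exact ⟨Nat.div_dvd_of_dvd hqn, Nat.div_lt_self hn (hQ q hq).one_lt⟩

theorem step {Q : Finset ℕ} (hQ : ∀ q ∈ Q, q.Prime) (m : ℕ) :
    (∑ q ∈ Q, (1 : ℝ) / q) * ∑ n ∈ N Q m, (a n : ℝ) / n ≤ ∑ n ∈ N Q (m + 1), (a n : ℝ) / n := by
  classical
  have h1 : (∑ q ∈ Q, (1 : ℝ) / q) * ∑ n ∈ N Q m, (a n : ℝ) / n =
      ∑ x ∈ Q ×ˢ N Q m, (a x.2 : ℝ) / ((x.1 * x.2 : ℕ) : ℝ) := by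
    rw [Finset.sum_mul_sum, Finset.sum_product]
    refine Finset.sum_congr rfl fun q hq => Finset.sum_congr rfl fun n hn => ?_
    push_cast
    rw [div_mul_div_comm, one_mul]
  rw [h1, ← Finset.sum_fiberwise_of_maps_to (s := Q ×ˢ N Q m) (t := N Q (m + 1))
    (g := fun x => x.1 * x.2) (fun x hx => by
      rw [N]; exact mem_image_of_mem _ hx)]
  refine Finset.sum_le_sum fun n hn => ?_
  have hn0 := N_pos hQ _ n hn
  have h2 : ∑ x ∈ Q ×ˢ N Q m with x.1 * x.2 = n, (a x.2 : ℝ) / ((x.1 * x.2 : ℕ) : ℝ) =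
      (∑ x ∈ Q ×ˢ N Q m with x.1 * x.2 = n, (a x.2 : ℝ)) / n := by
    rw [Finset.sum_div]
    refine Finset.sum_congr rfl fun x hx => ?_
    rw [(mem_filter.1 hx).2]
  rw [h2]
  refine div_le_div_of_nonneg_right ?_ (by positivity)
  have h3 : ∑ x ∈ Q ×ˢ N Q m with x.1 * x.2 = n, a x.2 ≤ ∑ q ∈ Q.filter (· ∣ n), a (n / q) := by
    have hinj : Set.InjOn Prod.fst (↑((Q ×ˢ N Q m).filter (fun x => x.1 * x.2 = n)) :
        Set (ℕ × ℕ)) := by
      rintro ⟨x1, x2⟩ hx ⟨y1, y2⟩ hy hxy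
      simp only [coe_filter, mem_product, Set.mem_ofPred_eq] at hx hy hxy
      subst hxy
      have h := hx.2.trans hy.2.symm
      rw [Nat.eq_of_mul_eq_mul_left (hQ _ hx.1.1).pos h]
    have h4 : ∑ x ∈ Q ×ˢ N Q m with x.1 * x.2 = n, a x.2 =
        ∑ x ∈ Q ×ˢ N Q m with x.1 * x.2 = n, a (n / x.1) := by
      refine Finset.sum_congr rfl fun x hx => ?_
      obtain ⟨h5, h6⟩ := mem_filter.1 hx
      rw [← h6, Nat.mul_div_cancel_left _ (hQ _ (mem_product.1 h5).1).pos]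
    rw [h4, ← Finset.sum_image (f := fun q => a (n / q)) hinj]
    refine Finset.sum_le_sum_of_subset ?_
    intro q hq
    simp only [mem_image, mem_filter, mem_product, Prod.exists] at hq ⊢
    obtain ⟨x, y, ⟨⟨hx, hy⟩, hxy⟩, rfl⟩ := hq
    exact ⟨hx, ⟨y, hxy.symm⟩⟩
  exact_mod_cast h3.trans (sum_le_a hQ hn0)

theorem lower {Q : Finset ℕ} (hQ : ∀ q ∈ Q, q.Prime) (m : ℕ) :
    (∑ q ∈ Q, (1 : ℝ) / q) ^ m ≤ ∑ n ∈ N Q m, (a n : ℝ) / n := by
  induction m with
  | zero => simp [N, a_one]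
  | succ m ih =>
    refine le_trans ?_ (step hQ m)
    rw [pow_succ, mul_comm]
    exact mul_le_mul_of_nonneg_left ih (Finset.sum_nonneg fun q _ => by positivity)

theorem card_N {Q : Finset ℕ} (hQ : ∀ q ∈ Q, q.Prime) (m : ℕ) : #(N Q m) ≤ (m + 1) ^ #Q := by
  have hP : ∏ q ∈ Q, q ≠ 0 := Finset.prod_ne_zero_iff.2 fun q hq => (hQ q hq).ne_zero
  have h1 : N Q m ⊆ ((∏ q ∈ Q, q) ^ m).divisors := fun n hn =>
    Nat.mem_divisors.2 ⟨N_dvd m n hn, pow_ne_zero _ hP⟩
  refine (card_le_card h1).trans ?_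
  rw [Nat.card_divisors (pow_ne_zero _ hP)]
  have h2 : ((∏ q ∈ Q, q) ^ m).primeFactors ⊆ Q := by
    intro p hp
    have hp' := Nat.prime_of_mem_primeFactors hp
    have h3 := hp'.dvd_of_dvd_pow (Nat.dvd_of_mem_primeFactors hp)
    obtain ⟨q, hq, hpq⟩ := (Nat.Prime.prime hp').exists_mem_finset_dvd h3
    rwa [(Nat.prime_dvd_prime_iff_eq hp' (hQ q hq)).1 hpq]
  calc ∏ x ∈ ((∏ q ∈ Q, q) ^ m).primeFactors, (((∏ q ∈ Q, q) ^ m).factorization x + 1)
      ≤ ∏ x ∈ ((∏ q ∈ Q, q) ^ m).primeFactors, (m + 1) := by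
        refine Finset.prod_le_prod' fun x hx => ?_
        have hx' := Nat.prime_of_mem_primeFactors hx
        rw [Nat.factorization_pow]
        have h5 : (∏ q ∈ Q, q).factorization x ≤ 1 := by
          rw [Nat.factorization_prod (fun q hq => (hQ q hq).ne_zero)]
          rw [Finsupp.finsetSum_apply]
          calc ∑ q ∈ Q, q.factorization x = ∑ q ∈ Q, if q = x then 1 else 0 := by
                refine Finset.sum_congr rfl fun q hq => ?_
                rw [(hQ q hq).factorization, Finsupp.single_apply]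
            _ ≤ 1 := by
                rw [Finset.sum_ite_eq']
                split_ifs <;> omega
        simp only [Finsupp.smul_apply, smul_eq_mul]
        nlinarith
    _ = (m + 1) ^ #(((∏ q ∈ Q, q) ^ m).primeFactors) := by rw [Finset.prod_const]
    _ ≤ (m + 1) ^ #Q := Nat.pow_le_pow_right (by omega) (card_le_card h2)

/-- Every finite set of primes whose reciprocals have sum more than one supports an ample
number. -/
theorem exists_ample {Q : Finset ℕ} (hQ : ∀ q ∈ Q, q.Prime) (hS : 1 < ∑ q ∈ Q, (1 : ℝ) / q) :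
    ∃ m, ∃ n ∈ N Q m, n < a n := by
  by_contra hcon
  push Not at hcon
  set S := ∑ q ∈ Q, (1 : ℝ) / q with hSdef
  have h1 : ∀ m : ℕ, S ^ m ≤ ((m : ℝ) + 1) ^ #Q := by
    intro m
    calc S ^ m ≤ ∑ n ∈ N Q m, (a n : ℝ) / n := lower hQ m
      _ ≤ ∑ n ∈ N Q m, (1 : ℝ) := by
          refine Finset.sum_le_sum fun n hn => ?_
          rw [div_le_one (by exact_mod_cast N_pos hQ m n hn)]
          exact_mod_cast hcon m n hn
      _ = (#(N Q m) : ℝ) := by simp
      _ ≤ ((m : ℝ) + 1) ^ #Q := by exact_mod_cast card_N hQ m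
  have h2 := tendsto_pow_const_div_const_pow_of_one_lt #Q hS
  have h3 : ∀ᶠ m : ℕ in atTop, (m : ℝ) ^ #Q / S ^ m < (1 / 2) ^ #Q := by
    exact h2.eventually_lt_const (by positivity)
  obtain ⟨m, hm, hm1⟩ := (h3.and (eventually_ge_atTop 1)).exists
  have hSm : 0 < S ^ m := by positivity
  rw [div_lt_iff₀ hSm] at hm
  have hm1' : (1 : ℝ) ≤ m := by exact_mod_cast hm1
  have h4 : ((m : ℝ) + 1) ^ #Q ≤ (2 * m) ^ #Q := by
    gcongr; linarith
  have h5 := (h1 m).trans h4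
  rw [mul_pow] at h5
  have h6 : (2 : ℝ) ^ #Q * (m : ℝ) ^ #Q < 2 ^ #Q * ((1 / 2) ^ #Q * S ^ m) :=
    mul_lt_mul_of_pos_left hm (by positivity)
  have h7 : (2 : ℝ) ^ #Q * ((1 / 2) ^ #Q * S ^ m) = S ^ m := by
    rw [← mul_assoc, ← mul_pow]
    norm_num
  linarith

theorem exists_Q (K : ℕ) : ∃ Q : Finset ℕ, (∀ q ∈ Q, q.Prime ∧ K ≤ q) ∧
    1 < ∑ q ∈ Q, (1 : ℝ) / q := by
  classical
  have h1 := Nat.Primes.not_summable_one_div
  have h0 := not_summable_one_div_on_primes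
  rw [not_summable_iff_tendsto_nat_atTop_of_nonneg] at h0
  · obtain ⟨M, hM, hKM⟩ := ((h0.eventually_gt_atTop
      (1 + ∑ i ∈ range K, Set.indicator {p : ℕ | p.Prime} (fun n : ℕ => (1 : ℝ) / n) i)).and
      (eventually_ge_atTop K)).exists
    refine ⟨(Finset.Ico K M).filter Nat.Prime, fun q hq => ?_, ?_⟩
    · rw [mem_filter, mem_Ico] at hq
      exact ⟨hq.2, hq.1.1⟩
    · rw [← Finset.sum_range_add_sum_Ico _ hKM] at hM
      have h2 : ∑ i ∈ Ico K M, Set.indicator {p : ℕ | p.Prime} (fun n : ℕ => (1 : ℝ) / n) i =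
          ∑ q ∈ (Ico K M).filter Nat.Prime, (1 : ℝ) / q := by
        rw [Finset.sum_filter]
        refine Finset.sum_congr rfl fun i _ => ?_
        simp [Set.indicator_apply]
      rw [← h2]
      linarith
  · intro n
    exact Set.indicator_nonneg (fun _ _ => by positivity) n

/-- For every `k ≥ 1` there is an ample number which is coprime to the product of the first `k`
primes. -/
theorem result : ∀ k : ℕ, 1 ≤ k →
    ∃ n : ℕ, 0 < n ∧ n < a n ∧ Nat.gcd n (∏ i ∈ Finset.range k, Nat.nth Nat.Prime i) = 1 := by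
  intro k _
  obtain ⟨Q, hQ, hS⟩ := exists_Q (Nat.nth Nat.Prime k)
  obtain ⟨m, n, hn, han⟩ := exists_ample (fun q hq => (hQ q hq).1) hS
  refine ⟨n, N_pos (fun q hq => (hQ q hq).1) m n hn, han, ?_⟩
  refine Nat.Coprime.coprime_dvd_left (N_dvd m n hn) ?_
  refine Nat.Coprime.pow_left _ (Nat.Coprime.prod_left fun q hq => Nat.Coprime.prod_right
    fun i hi => ?_)
  rw [Nat.coprime_primes (hQ q hq).1 (Nat.prime_nth_prime i)]
  have h1 := (hQ q hq).2
  have h2 : Nat.nth Nat.Prime i < Nat.nth Nat.Prime k :=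
    Nat.nth_strictMono Nat.infinite_setOfPred_prime (mem_range.1 hi)
  omega

end Pool.Agent.Results.MP_bbacab_nt.AmpleCoprime
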